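import Mathlib
import Pool.Agent.H52EH.Levels

/-!
# Closing off under a finitary operation with values of size at most `μ`, and levels
-/

namespace Pool.Agent.H60EH

open Pool.Agent.H52EH (stage cl stage_mono subset_cl cl_closed stage_subset cl_mono)

open Set Cardinal

universe u

variable {V : Type u}

variable {op : Finset V → Set V}

lemma mk_cl_le {μ : Cardinal.{u}} (hμ : ℵ₀ ≤ μ) (hop : ∀ F, #(op F) ≤ μ) (X : Set V) :
    #(cl op X) ≤ max #X μ := by
  set κ := max #X μ with hκ
  have hμκ : μ ≤ κ := le_max_right _ _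
  have hκ0 : ℵ₀ ≤ κ := hμ.trans hμκ
  have hstage : ∀ k, #(stage op X k) ≤ κ := by
    intro k
    induction k with
    | zero => exact le_max_left _ _
    | succ k ih =>
      have h1 : #{F : Finset V // ↑F ⊆ stage op X k} ≤ κ := by
        have h2 : #{F : Finset V // ↑F ⊆ stage op X k} ≤ #(Finset (stage op X k)) := by
          classical
          refine mk_le_of_injective (f := fun F => F.1.subtype (· ∈ stage op X k)) ?_
          intro F G hFG
          apply Subtype.ext
          have h3 : ∀ (F : {F : Finset V // ↑F ⊆ stage op X k}),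
              (F.1.subtype (· ∈ stage op X k)).map (Function.Embedding.subtype _) = F.1 := by
            intro F
            rw [Finset.subtype_map, Finset.filter_eq_self]
            intro x hx
            exact F.2 hx
          have hFG' : F.1.subtype (· ∈ stage op X k) = G.1.subtype (· ∈ stage op X k) := hFG
          rw [← h3 F, ← h3 G, hFG']
        refine h2.trans ?_
        rcases finite_or_infinite (stage op X k) with hfin | hinf
        · have : Finite (Finset (stage op X k)) := inferInstance
          exact (lt_aleph0_of_finite _).le.trans hκ0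
        · rw [mk_finset_of_infinite]
          exact ih
      have h4 : #(⋃ F : {F : Finset V // ↑F ⊆ stage op X k}, op F.1) ≤ κ := by
        refine (mk_iUnion_le _).trans ?_
        have h5 : (⨆ F : {F : Finset V // ↑F ⊆ stage op X k}, #(op F.1)) ≤ κ :=
          ciSup_le' fun F => (hop F.1).trans hμκ
        refine (mul_le_mul' h1 h5).trans ?_
        rw [mul_eq_self hκ0]
      exact (mk_union_le _ _).trans ((add_le_add ih h4).trans (add_eq_self hκ0).le)
  have h := mk_iUnion_le_lift (stage op X)
  rw [lift_uzero] at h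
  refine h.trans ?_
  have h6 : (⨆ k, lift.{0} #(stage op X k)) ≤ κ := ciSup_le' fun k => by
    rw [lift_uzero]
    exact hstage k
  have h7 : lift.{u, 0} #ℕ = ℵ₀ := by simp
  rw [h7]
  refine (mul_le_mul' le_rfl h6).trans ?_
  rw [aleph0_mul_eq hκ0]

/-- **Levels.** Let `V` have more than `μ` elements, `μ` infinite, and `op` a finitary operation
with values of size at most `μ`, `op ∅ = ∅`. Then `V` has a level function into a linear order such that every level has fewer
elements than `V`, and the elements of lower level than `x` are contained in a set which is closed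
under `op` and does not contain `x`. -/
theorem exists_levels_mu {μ : Cardinal.{u}} (hμ : ℵ₀ ≤ μ) (hop : ∀ F, #(op F) ≤ μ)
    (hempty : op ∅ = ∅) (hV : μ < #V) :
    ∃ (ι : Type u) (_ : LinearOrder ι) (lev : V → ι),
      (∀ i, #{x | lev x = i} < #V) ∧
      ∀ x, ∃ M : Set V, (∀ F : Finset V, ↑F ⊆ M → op F ⊆ M) ∧ x ∉ M ∧
        ∀ y, lev y < lev x → y ∈ M := by
  classical
  let ι : Type u := (#V).ord.ToType
  have hι : #ι = #V := by simp [ι]
  obtain ⟨e⟩ : Nonempty (ι ≃ V) := Cardinal.eq.1 hι
  let X : ι → Set V := fun i => e '' Iic i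
  have hXmono : ∀ i j, i ≤ j → X i ⊆ X j := fun i j h => image_mono (Iic_subset_Iic.2 h)
  have hex : ∀ x : V, ∃ i, x ∈ cl op (X i) := fun x =>
    ⟨e.symm x, subset_cl _ ⟨e.symm x, by simp, by simp⟩⟩
  let lev : V → ι := fun x => WellFounded.min (wellFounded_lt (α := ι)) {i | x ∈ cl op (X i)} (hex x)
  have hlev : ∀ x, x ∈ cl op (X (lev x)) := fun x =>
    WellFounded.min_mem (wellFounded_lt (α := ι)) {i | x ∈ cl op (X i)} (hex x)
  have hlev' : ∀ x i, x ∈ cl op (X i) → lev x ≤ i := fun x i hi =>
    not_lt.1 (WellFounded.not_lt_min (wellFounded_lt (α := ι)) {i | x ∈ cl op (X i)} hi)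
  refine ⟨ι, inferInstance, lev, ?_, ?_⟩
  · intro i
    have h1 : {x | lev x = i} ⊆ cl op (X i) := by
      rintro x rfl
      exact hlev x
    refine (mk_le_mk_of_subset h1).trans_lt ((mk_cl_le hμ hop _).trans_lt (max_lt ?_ hV))
    refine mk_image_le.trans_lt ?_
    have h2 : #(Iio i) < #V := by simpa [ι] using mk_Iio_lt i
    have h3 : #(Iic i) ≤ #(Iio i) + 1 := by
      rw [← Iio_insert]
      exact mk_insert_le
    refine h3.trans_lt (add_lt_of_lt (hμ.trans hV.le) h2 ?_)
    exact (one_lt_aleph0).trans (hμ.trans_lt hV)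
  · intro x
    refine ⟨⋃ j : {j // j < lev x}, cl op (X j.1), ?_, ?_, ?_⟩
    · intro F hF
      rcases F.eq_empty_or_nonempty with rfl | hne
      · rw [hempty]
        exact empty_subset _
      · have h1 : ∀ y ∈ F, ∃ j, j < lev x ∧ y ∈ cl op (X j) := by
          intro y hy
          obtain ⟨j, hj⟩ := mem_iUnion.1 (hF hy)
          exact ⟨j.1, j.2, hj⟩
        have : Nonempty ι := ⟨lev x⟩
        choose! f hf1 hf2 using h1
        have h2 : F.sup' hne f < lev x := by
          rw [Finset.sup'_lt_iff]
          exact hf1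
        refine subset_trans (cl_closed (X (F.sup' hne f)) ?_)
          (subset_iUnion (fun j : {j // j < lev x} => cl op (X j.1)) ⟨_, h2⟩)
        intro y hy
        exact cl_mono (hXmono _ _ (Finset.le_sup' f hy)) (hf2 y hy)
    · intro hx
      obtain ⟨j, hj⟩ := mem_iUnion.1 hx
      exact absurd j.2 (not_lt.2 (hlev' x j.1 hj))
    · intro y hy
      exact mem_iUnion.2 ⟨⟨lev y, hy⟩, hlev y⟩

/-- every set of size at most continuum has a symmetric colouring of its pairs with countably many
colours without a triangle in one colour -/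
theorem continuum_coloring (hV : #V ≤ Cardinal.continuum.{u}) :
    ∃ c : V → V → ℕ, (∀ x y, c x y = c y x) ∧
      ∀ x y z, x ≠ y → y ≠ z → x ≠ z → ¬(c x y = c y z ∧ c x y = c x z) := by
  classical
  have h1 : #V ≤ #(ULift.{u} (ℕ → Bool)) := by
    refine hV.trans (le_of_eq ?_)
    simp
  obtain ⟨g⟩ : Nonempty (V ↪ ULift.{u} (ℕ → Bool)) := h1
  let f : V → ℕ → Bool := fun x => (g x).down
  have hf : ∀ x y, x ≠ y → ∃ n, f x n ≠ f y n := by
    intro x y hxy
    by_contra hcon
    push Not at hcon
    apply hxy
    apply g.injective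
    apply ULift.ext
    funext n
    exact hcon n
  let c : V → V → ℕ := fun x y => if h : ∃ n, f x n ≠ f y n then Nat.find h else 0
  have hc : ∀ x y, x ≠ y → f x (c x y) ≠ f y (c x y) := by
    intro x y hxy
    have h := hf x y hxy
    have h2 : c x y = Nat.find h := by simp only [c]; rw [dif_pos h]
    rw [h2]
    exact Nat.find_spec h
  refine ⟨c, ?_, ?_⟩
  · intro x y
    simp only [c, ne_comm]
  · rintro x y z hxy hyz hxz ⟨h1, h2⟩
    have a1 := hc x y hxy
    have a2 := hc y z hyz
    have a3 := hc x z hxz
    rw [← h1] at a2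
    rw [← h2] at a3
    revert a1 a2 a3
    cases f x (c x y) <;> cases f y (c x y) <;> cases f z (c x y) <;> simp

end Pool.Agent.H60EH
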