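import Pool.Agent.H60EH.Levels
import Pool.Agent.H52EH.Color

/-!
# Graphs which are not a countable union of triangle-free graphs: a coherent core

`Step μ G P` is the set of the pairs `(x, W)`, `W` a set of neighbours of `x` of uncountable
chromatic number, such that for every finite subset `F` of `W` more than `μ` vertices
`z` have a pair `(z, W')` in `P` with `F` contained in `W'`. If no nonempty set `P` of pairs is
contained in `Step μ G P`, then `G` is a countable union of triangle-free graphs.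
-/

namespace Pool.Agent.H60EH

open Set Cardinal
open Pool.Agent.H52EH (TriColorable)

universe u

lemma sub_fin {V : Type u} {p : V → Prop} [DecidablePred p] (F' : Finset V)
    (W : Set {x // p x}) (h : (↑F' : Set V) ⊆ Subtype.val '' W) :
    (↑(F'.subtype p) : Set {x // p x}) ⊆ W ∧
      ∀ W' : Set {x // p x}, (↑(F'.subtype p) : Set {x // p x}) ⊆ W' →
        (↑F' : Set V) ⊆ Subtype.val '' W' := by
  constructor
  · intro y hy
    have hy' : y.1 ∈ F' := by
      rw [Finset.mem_coe, Finset.mem_subtype] at hy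
      exact hy
    obtain ⟨y', hy1, hy2⟩ := h hy'
    rwa [← Subtype.ext hy2]
  · intro W' hW' y hy
    obtain ⟨y', -, rfl⟩ := h hy
    refine ⟨y', hW' ?_, rfl⟩
    rw [Finset.mem_coe, Finset.mem_subtype]
    exact hy

/-- a graph with a rank function on the pairs (vertex, set of neighbours) such that the sets of
neighbours which survive in the final segments are countably chromatic, and all of whose induced
subgraphs on at most `μ` vertices are countable unions of triangle-free graphs, is a countable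
union of triangle-free graphs -/
theorem triColorable_of_rank {μ : Cardinal.{u}} (hμ : ℵ₀ ≤ μ) :
    ∀ (V : Type u) (G : SimpleGraph V) (ρ : V → Set V → Ordinal.{u}),
    (∀ (A : Type u) (f : A → V), Function.Injective f → #A ≤ μ → TriColorable (G.comap f)) →
    (∀ x (W : Set V), (∀ y ∈ W, G.Adj x y) →
      (∀ F : Finset V, ↑F ⊆ W →
        μ < #{z : V | ∃ W' : Set V, ↑F ⊆ W' ∧ ρ x W ≤ ρ z W'}) →
      ∃ φ : V → ℕ, ∀ y ∈ W, ∀ z ∈ W, G.Adj y z → φ y ≠ φ z) → TriColorable G := by
  suffices H : ∀ (κ : Cardinal.{u}) (V : Type u), #V = κ →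
      ∀ (G : SimpleGraph V) (ρ : V → Set V → Ordinal.{u}),
      (∀ (A : Type u) (f : A → V), Function.Injective f → #A ≤ μ → TriColorable (G.comap f)) →
      (∀ x (W : Set V), (∀ y ∈ W, G.Adj x y) →
        (∀ F : Finset V, ↑F ⊆ W →
          μ < #{z : V | ∃ W' : Set V, ↑F ⊆ W' ∧ ρ x W ≤ ρ z W'}) →
        ∃ φ : V → ℕ, ∀ y ∈ W, ∀ z ∈ W, G.Adj y z → φ y ≠ φ z) → TriColorable G from
    fun V => H #V V rfl
  intro κ
  induction κ using WellFoundedLT.induction with
  | ind κ ih =>
  intro V hV G ρ hbase hG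
  classical
  rcases le_or_gt #V μ with hc | hc
  · -- at most `μ` many vertices
    exact hbase V id Function.injective_id hc
  -- the closing operation
  let Y : Finset V → Ordinal.{u} → Set V := fun F a => {z | ∃ W' : Set V, ↑F ⊆ W' ∧ a ≤ ρ z W'}
  have hY : ∀ F a b, a ≤ b → Y F b ⊆ Y F a := by
    rintro F a b hab z ⟨W', h1, h2⟩
    exact ⟨W', h1, hab.trans h2⟩
  let op : Finset V → Set V := fun F => if F = ∅ then ∅ else
    {z | ∃ a, #(Y F a) ≤ μ ∧ z ∈ Y F a}
  have hop : ∀ F, #(op F) ≤ μ := by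
    intro F
    by_cases hF : F = ∅
    · simp only [op, hF, if_true]
      simp
    · simp only [op, hF, if_false]
      by_cases hex : ∃ a, #(Y F a) ≤ μ
      · obtain ⟨m, hm, hmin⟩ :=
          (wellFounded_lt (α := Ordinal.{u})).has_min {a | #(Y F a) ≤ μ} hex
        refine (mk_le_mk_of_subset ?_).trans hm
        rintro z ⟨a, ha, hz⟩
        exact hY F m a (not_lt.1 (hmin a ha)) hz
      · have : {z | ∃ a, #(Y F a) ≤ μ ∧ z ∈ Y F a} = (∅ : Set V) := by
          rw [eq_empty_iff_forall_notMem]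
          rintro z ⟨a, ha, -⟩
          exact hex ⟨a, ha⟩
        rw [this]
        simp
  have hempty : op ∅ = ∅ := if_pos rfl
  obtain ⟨ι, _, lev, hlev, hM⟩ := exists_levels_mu hμ hop hempty hc
  -- colouring of the lower neighbourhood of `x`
  have hlow : ∀ x : V, ∃ φ : V → ℕ, ∀ y z, G.Adj x y → G.Adj x z → G.Adj y z →
      lev y < lev x → lev z < lev x → φ y ≠ φ z := by
    intro x
    obtain ⟨M, hM1, hM2, hM3⟩ := hM x
    let S : Set V := {y | G.Adj x y ∧ lev y < lev x}
    have hkey : ∀ F : Finset V, F.Nonempty → ↑F ⊆ S → μ < #(Y F (ρ x S)) := by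
      intro F hne hF
      by_contra hle
      apply hM2
      have h1 : x ∈ op F := by
        simp only [op, hne.ne_empty, if_false]
        exact ⟨ρ x S, not_lt.1 hle, S, hF, le_rfl⟩
      exact hM1 F (fun y hy => hM3 y (hF hy).2) h1
    rcases S.eq_empty_or_nonempty with he | ⟨w, hw⟩
    · refine ⟨fun _ => 0, ?_⟩
      intro y z hxy _ _ hy _
      exact absurd (show y ∈ S from ⟨hxy, hy⟩) (by rw [he]; exact notMem_empty y)
    · obtain ⟨φ, hφ⟩ := hG x S (fun y hy => hy.1) (by
        intro F hF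
        rcases F.eq_empty_or_nonempty with rfl | hne
        · refine (hkey {w} (Finset.singleton_nonempty w) (by simpa using hw)).trans_le
            (mk_le_mk_of_subset ?_)
          rintro z ⟨W', -, hW'⟩
          exact ⟨W', by simp, hW'⟩
        · exact hkey F hne hF)
      exact ⟨φ, fun y z hxy hxz hyz hy hz => hφ y ⟨hxy, hy⟩ z ⟨hxz, hz⟩ hyz⟩
  choose φ hφ using hlow
  -- colourings inside the levels
  have hlevel : ∀ i : ι, ∃ c : V → V → ℕ, (∀ x y, c x y = c y x) ∧
      ∀ x y z, lev x = i → lev y = i → lev z = i → G.Adj x y → G.Adj y z → G.Adj x z →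
        ¬(c x y = c y z ∧ c y z = c x z) := by
    intro i
    have hlt : #{x // lev x = i} < κ := hV ▸ hlev i
    obtain ⟨c, hc1, hc2⟩ := ih _ hlt {x // lev x = i} rfl (G.comap Subtype.val)
      (fun x W => ρ x.1 (Subtype.val '' W)) (fun A f hf hA =>
        hbase A (fun a => (f a).1) (Subtype.val_injective.comp hf) hA) (by
      intro x W hW hF
      obtain ⟨ψ, hψ⟩ := hG x.1 (Subtype.val '' W) (by
        rintro _ ⟨y, hy, rfl⟩
        exact hW y hy) (by
        intro F' hF'
        obtain ⟨h1, h2⟩ := sub_fin (p := fun v => lev v = i) F' W hF'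
        refine (hF _ h1).trans_le ?_
        refine mk_le_of_injective (f := fun z => ⟨z.1.1, ?_⟩) ?_
        · obtain ⟨W', hW1, hW2⟩ := z.2
          exact ⟨Subtype.val '' W', h2 W' hW1, hW2⟩
        · intro z z' hzz
          have h3 := congrArg Subtype.val hzz
          exact Subtype.ext (Subtype.ext h3))
      exact ⟨fun v => ψ v.1, fun y hy z hz hyz =>
        hψ y.1 ⟨y, hy, rfl⟩ z.1 ⟨z, hz, rfl⟩ hyz⟩)
    refine ⟨fun x y => if h : lev x = i ∧ lev y = i then c ⟨x, h.1⟩ ⟨y, h.2⟩ else 0, ?_, ?_⟩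
    · intro x y
      by_cases h : lev x = i ∧ lev y = i
      · simp only [h, and_self, dif_pos]
        exact hc1 _ _
      · have h' : ¬(lev y = i ∧ lev x = i) := fun h' => h h'.symm
        simp only [h, h', dif_neg, not_false_iff]
    · intro x y z hx hy hz hxy hyz hxz
      have h1 : lev x = i ∧ lev y = i := ⟨hx, hy⟩
      have h2 : lev y = i ∧ lev z = i := ⟨hy, hz⟩
      simp only [h1, h2]
      exact hc2 ⟨x, hx⟩ ⟨y, hy⟩ ⟨z, hz⟩ hxy hyz hxz
  choose c hc1 hc2 using hlevel
  -- the colouring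
  let col : V → V → ℕ := fun x y =>
    if lev x = lev y then 2 * c (lev x) x y
    else if lev y < lev x then 2 * φ x y + 1 else 2 * φ y x + 1
  have hsymm : ∀ x y, col x y = col y x := by
    intro x y
    simp only [col]
    rcases lt_trichotomy (lev x) (lev y) with h | h | h
    · simp [h, h.ne, h.ne', not_lt.2 h.le]
    · simp [h, hc1 _ x y]
    · simp [h, h.ne, h.ne', not_lt.2 h.le]
  -- even colours occur exactly inside levels
  have heven : ∀ x y, lev x = lev y → col x y = 2 * c (lev x) x y := by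
    intro x y h
    simp [col, h]
  have hodd : ∀ x y, lev y < lev x → col x y = 2 * φ x y + 1 := by
    intro x y h
    simp [col, h, h.ne']
  refine ⟨col, hsymm, ?_⟩
  -- triangle with a unique top vertex
  have top1 : ∀ x y z, lev y < lev x → lev z < lev x → G.Adj x y → G.Adj x z → G.Adj y z →
      col x y ≠ col x z := by
    intro x y z hy hz hxy hxz hyz
    rw [hodd x y hy, hodd x z hz]
    have := hφ x y z hxy hxz hyz hy hz
    omega
  -- two top vertices
  have top2 : ∀ x y z, lev x = lev y → lev z < lev x → col x y ≠ col x z := by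
    intro x y z hxy hz
    rw [heven x y hxy, hodd x z hz]
    omega
  rintro x y z hxy hyz hxz ⟨h1, h2⟩
  have h3 : col x y = col x z := h1.trans h2
  have h1' : col y x = col y z := by rw [hsymm y x]; exact h1
  have h2' : col z y = col z x := by rw [hsymm z y, hsymm z x]; exact h2
  rcases lt_trichotomy (lev x) (lev y) with hxy' | hxy' | hxy'
  · rcases lt_trichotomy (lev y) (lev z) with hyz' | hyz' | hyz'
    · exact top1 z y x hyz' (hxy'.trans hyz') hyz.symm hxz.symm hxy.symm h2'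
    · exact top2 y z x hyz' hxy' h1'.symm
    · exact top1 y x z hxy' hyz' hxy.symm hyz hxz h1'
  · rcases lt_trichotomy (lev y) (lev z) with hyz' | hyz' | hyz'
    · exact top1 z y x hyz' (hxy' ▸ hyz') hyz.symm hxz.symm hxy.symm h2'
    · refine hc2 (lev x) x y z rfl hxy'.symm (hxy'.trans hyz').symm hxy hyz hxz ?_
      rw [heven x y hxy', heven y z hyz', ← hxy'] at h1
      rw [heven y z hyz', heven x z (hxy'.trans hyz'), ← hxy'] at h2
      exact ⟨by omega, by omega⟩
    · exact top2 x y z hxy' (hxy' ▸ hyz') h3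
  · rcases lt_trichotomy (lev x) (lev z) with hxz' | hxz' | hxz'
    · exact top1 z y x (hxy'.trans hxz') hxz' hyz.symm hxz.symm hxy.symm h2'
    · exact top2 x z y hxz' hxy' h3.symm
    · exact top1 x y z hxy' hxz' hxy hxz hyz h3

/-- the step operator on sets of pairs -/
def Step {V : Type u} (μ : Cardinal.{u}) (G : SimpleGraph V) (P : Set (V × Set V)) :
    Set (V × Set V) :=
  {p | (∀ y ∈ p.2, G.Adj p.1 y) ∧
    (¬∃ φ : V → ℕ, ∀ y ∈ p.2, ∀ z ∈ p.2, G.Adj y z → φ y ≠ φ z) ∧
    ∀ F : Finset V, ↑F ⊆ p.2 →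
      μ < #{z : V | ∃ W' : Set V, ↑F ⊆ W' ∧ (z, W') ∈ P}}

lemma step_mono {V : Type u} (μ : Cardinal.{u}) (G : SimpleGraph V) : Monotone (Step μ G) := by
  rintro P P' hP p ⟨h1, h2, h3⟩
  refine ⟨h1, h2, fun F hF => (h3 F hF).trans_le (mk_le_mk_of_subset ?_)⟩
  rintro z ⟨W', h4, h5⟩
  exact ⟨W', h4, hP h5⟩

/-- the step operator as a monotone map -/
def stepHom {V : Type u} (μ : Cardinal.{u}) (G : SimpleGraph V) :
    Set (V × Set V) →o Set (V × Set V) :=
  ⟨Step μ G, step_mono μ G⟩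

/-- the core theorem -/
theorem triColorable_of_gfp {μ : Cardinal.{u}} (hμ : ℵ₀ ≤ μ) {V : Type u} (G : SimpleGraph V)
    (hbase : ∀ (A : Type u) (f : A → V), Function.Injective f → #A ≤ μ →
      TriColorable (G.comap f)) (hG : (stepHom μ G).gfp = ∅) :
    TriColorable G := by
  set f := stepHom μ G with hf
  obtain ⟨a, ha⟩ := OrdinalApprox.gfp_mem_range_gfpApprox f
  rw [hG] at ha
  have hex : ∀ p : V × Set V, ∃ b : Ordinal.{u},
      p ∉ Step μ G (OrdinalApprox.gfpApprox f ⊤ b) := by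
    intro p
    refine ⟨a, fun hx => ?_⟩
    have h1 : f f.gfp = f.gfp := OrderHom.map_gfp f
    rw [ha, ← hG] at hx
    have h2 : p ∈ f f.gfp := hx
    rw [h1, hG] at h2
    exact h2
  choose! ρ hρ using fun p => (wellFounded_lt (α := Ordinal.{u})).has_min
    {b | p ∉ Step μ G (OrdinalApprox.gfpApprox f ⊤ b)} (hex p)
  have hseg : ∀ (b : Ordinal.{u}) (q : V × Set V), b ≤ ρ q →
      q ∈ OrdinalApprox.gfpApprox f ⊤ b := by
    intro b q hq
    rw [OrdinalApprox.gfpApprox]
    refine ⟨trivial, ?_⟩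
    simp only [iInf_eq_iInter, mem_iInter]
    intro b' hb'
    by_contra hmem
    exact (hρ q).2 b' hmem (hb'.trans_le hq)
  refine triColorable_of_rank hμ V G (fun x W => ρ (x, W)) hbase ?_
  intro x W hW hF
  by_contra hφ
  refine (hρ (x, W)).1 ⟨hW, hφ, ?_⟩
  intro F hFW
  refine (hF F hFW).trans_le (mk_le_mk_of_subset ?_)
  rintro z ⟨W', h1, h2⟩
  exact ⟨W', h1, hseg _ _ h2⟩

/-- every graph has a coherent core, outside of which it is a countable union of triangle-free
graphs -/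
theorem exists_core {μ : Cardinal.{u}} (hμ : ℵ₀ ≤ μ) {V : Type u} (G : SimpleGraph V)
    (hbase : ∀ (A : Type u) (f : A → V), Function.Injective f → #A ≤ μ →
      TriColorable (G.comap f)) :
    ∃ P : Set (V × Set V), P ⊆ Step μ G P ∧
      TriColorable (G.comap (Subtype.val : {x : V // ∀ W, (x, W) ∉ P} → V)) := by
  classical
  refine ⟨(stepHom μ G).gfp, (OrderHom.map_gfp (stepHom μ G)).ge, ?_⟩
  refine triColorable_of_gfp hμ _ (fun A f hf hA =>
    hbase A (fun a => (f a).1) (Subtype.val_injective.comp hf) hA) ?_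
  set P := (stepHom μ G).gfp with hP
  set G' := G.comap (Subtype.val : {x : V // ∀ W, (x, W) ∉ P} → V) with hG'
  set P' := (stepHom μ G').gfp with hP'
  have h1 : P' ⊆ Step μ G' P' := (OrderHom.map_gfp (stepHom μ G')).ge
  let P'' : Set (V × Set V) := {q | ∃ p ∈ P', q = (p.1.1, Subtype.val '' p.2)}
  have h2 : P'' ⊆ Step μ G P'' := by
    rintro _ ⟨⟨x, W⟩, hp, rfl⟩
    obtain ⟨a1, a2, a3⟩ := h1 hp
    refine ⟨?_, ?_, ?_⟩
    · rintro _ ⟨y, hy, rfl⟩
      exact a1 y hy
    · rintro ⟨φ, hφ⟩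
      exact a2 ⟨fun v => φ v.1, fun y hy z hz hyz =>
        hφ y.1 ⟨y, hy, rfl⟩ z.1 ⟨z, hz, rfl⟩ hyz⟩
    · intro F' hF'
      obtain ⟨h1, h2⟩ := sub_fin (p := fun v => ∀ W, (v, W) ∉ P) F' W hF'
      refine (a3 _ h1).trans_le ?_
      refine mk_le_of_injective (f := fun z => ⟨z.1.1, ?_⟩) ?_
      · obtain ⟨W', hW1, hW2⟩ := z.2
        exact ⟨Subtype.val '' W', h2 W' hW1, ⟨(z.1, W'), hW2, rfl⟩⟩
      · intro z z' hzz
        have h3 := congrArg Subtype.val hzz
        exact Subtype.ext (Subtype.ext h3)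
  have h3 : P'' ⊆ P := OrderHom.le_gfp (stepHom μ G) h2
  rw [eq_empty_iff_forall_notMem]
  rintro ⟨x, W⟩ hp
  exact x.2 _ (h3 ⟨(x, W), hp, rfl⟩)

/-- a graph is a countable union of triangle-free graphs if the two induced subgraphs on a set and
its complement are -/
theorem triColorable_of_split {V : Type u} (G : SimpleGraph V) (A : V → Prop)
    (h1 : TriColorable (G.comap (Subtype.val : {x : V // A x} → V)))
    (h2 : TriColorable (G.comap (Subtype.val : {x : V // ¬A x} → V))) : TriColorable G := by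
  classical
  obtain ⟨c, hc1, hc2⟩ := h1
  obtain ⟨d, hd1, hd2⟩ := h2
  let e : V → V → ℕ := fun x y =>
    if h : A x ∧ A y then 2 * c ⟨x, h.1⟩ ⟨y, h.2⟩ + 1
    else if h : ¬A x ∧ ¬A y then 2 * d ⟨x, h.1⟩ ⟨y, h.2⟩ + 2 else 0
  have e1 : ∀ x y (hx : A x) (hy : A y), e x y = 2 * c ⟨x, hx⟩ ⟨y, hy⟩ + 1 := by
    intro x y hx hy
    simp [e, hx, hy]
  have e2 : ∀ x y (hx : ¬A x) (hy : ¬A y), e x y = 2 * d ⟨x, hx⟩ ⟨y, hy⟩ + 2 := by
    intro x y hx hy
    simp [e, hx, hy]
  have e3 : ∀ x y, A x → ¬A y → e x y = 0 := by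
    intro x y hx hy
    simp [e, hx, hy]
  have e4 : ∀ x y, ¬A x → A y → e x y = 0 := by
    intro x y hx hy
    simp [e, hx, hy]
  refine ⟨e, ?_, ?_⟩
  · intro x y
    by_cases hx : A x <;> by_cases hy : A y
    · rw [e1 x y hx hy, e1 y x hy hx, hc1]
    · rw [e3 x y hx hy, e4 y x hy hx]
    · rw [e4 x y hx hy, e3 y x hy hx]
    · rw [e2 x y hx hy, e2 y x hy hx, hd1]
  · rintro x y z hxy hyz hxz ⟨h1, h2⟩
    by_cases hx : A x <;> by_cases hy : A y <;> by_cases hz : A z
    · rw [e1 x y hx hy, e1 y z hy hz] at h1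
      rw [e1 y z hy hz, e1 x z hx hz] at h2
      exact hc2 ⟨x, hx⟩ ⟨y, hy⟩ ⟨z, hz⟩ hxy hyz hxz ⟨by omega, by omega⟩
    · rw [e1 x y hx hy, e3 y z hy hz] at h1
      omega
    · rw [e3 x y hx hy] at h1
      rw [e4 y z hy hz, e1 x z hx hz] at h2
      omega
    · rw [e3 x y hx hy, e2 y z hy hz] at h1
      omega
    · rw [e4 x y hx hy, e1 y z hy hz] at h1
      omega
    · rw [e3 y z hy hz, e2 x z hx hz] at h2
      omega
    · rw [e2 x y hx hy, e4 y z hy hz] at h1
      omega
    · rw [e2 x y hx hy, e2 y z hy hz] at h1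
      rw [e2 y z hy hz, e2 x z hx hz] at h2
      exact hd2 ⟨x, hx⟩ ⟨y, hy⟩ ⟨z, hz⟩ hxy hyz hxz ⟨by omega, by omega⟩

/-- an uncountably chromatic induced subgraph contains, for every `n`, an `n`-set of vertices with
uncountably many common neighbours (Erdős and Hajnal) -/
theorem exists_biclique {V : Type u} (G : SimpleGraph V) (W : Set V)
    (hW : ¬∃ φ : V → ℕ, ∀ y ∈ W, ∀ z ∈ W, G.Adj y z → φ y ≠ φ z) (n : ℕ) :
    ∃ A : Finset V, A.card = n ∧ (↑A : Set V) ⊆ W ∧
      ¬{y : V | y ∈ W ∧ ∀ a ∈ A, G.Adj y a}.Countable := by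
  classical
  by_contra hcon
  push Not at hcon
  apply hW
  obtain ⟨c, hc⟩ := Pool.Agent.H52EH.exists_coloring n W (G.comap Subtype.val) (by
    intro F hF
    have h1 := hcon (F.map (Function.Embedding.subtype _)) (by rw [Finset.card_map, hF]) (by
      intro y hy
      obtain ⟨z, -, rfl⟩ := Finset.mem_map.1 (Finset.mem_coe.1 hy)
      exact z.2)
    refine (h1.preimage (Subtype.val_injective (p := fun v => v ∈ W))).mono ?_
    intro z hz
    refine ⟨z.2, ?_⟩
    intro a ha
    obtain ⟨a', ha', rfl⟩ := Finset.mem_map.1 ha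
    exact hz a' ha')
  refine ⟨fun y => if h : y ∈ W then c ⟨y, h⟩ else 0, ?_⟩
  intro y hy z hz hyz
  simp only [hy, hz, dif_pos]
  exact hc ⟨y, hy⟩ ⟨z, hz⟩ hyz

end Pool.Agent.H60EH
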