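import Pool.Agent.H60EH.Core

/-!
# Graphs which are not a countable union of triangle-free graphs: one set of neighbours per vertex

The form of the core theorem with one set `W x` of neighbours for every vertex `x` of the core.
-/

namespace Pool.Agent.H60EH

open Set Cardinal
open Pool.Agent.H52EH (TriColorable cl subset_cl cl_closed cl_mono)

universe u

/-- the induced subgraph on `W` has countable chromatic number -/
def CC {V : Type u} (G : SimpleGraph V) (W : Set V) : Prop :=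
  ∃ φ : V → ℕ, ∀ y ∈ W, ∀ z ∈ W, G.Adj y z → φ y ≠ φ z

/-- `P` is the graph of a partial function from the vertices to the sets of neighbours, and the
values are coherent -/
def GoodP {V : Type u} (μ : Cardinal.{u}) (G : SimpleGraph V) (P : Set (V × Set V)) : Prop :=
  (∀ x W W', (x, W) ∈ P → (x, W') ∈ P → W = W') ∧
  ∀ x W, (x, W) ∈ P → (∀ y ∈ W, G.Adj x y) ∧ ¬CC G W ∧
    ∀ F : Finset V, ↑F ⊆ W → μ < #{z : V | ∃ W' : Set V, (z, W') ∈ P ∧ ↑F ⊆ W'}

/-- a monotone map on sets whose only fixed point is empty gives a rank -/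
lemma exists_rank {α : Type u} (f : Set α →o Set α) (hf : f.gfp = ∅) :
    ∃ ρ : α → Ordinal.{u}, ∀ p, p ∉ f {q | ρ p ≤ ρ q} := by
  obtain ⟨a, ha⟩ := OrdinalApprox.gfp_mem_range_gfpApprox f
  rw [hf] at ha
  have hex : ∀ p : α, ∃ b : Ordinal.{u}, p ∉ f (OrdinalApprox.gfpApprox f ⊤ b) := by
    intro p
    refine ⟨a, fun hx => ?_⟩
    have h1 : f f.gfp = f.gfp := OrderHom.map_gfp f
    rw [ha, ← hf] at hx
    have h2 : p ∈ f f.gfp := hx
    rw [h1, hf] at h2
    exact h2
  choose! ρ hρ using fun p => (wellFounded_lt (α := Ordinal.{u})).has_min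
    {b | p ∉ f (OrdinalApprox.gfpApprox f ⊤ b)} (hex p)
  have hseg : ∀ (b : Ordinal.{u}) (q : α), b ≤ ρ q → q ∈ OrdinalApprox.gfpApprox f ⊤ b := by
    intro b q hq
    rw [OrdinalApprox.gfpApprox]
    refine ⟨trivial, ?_⟩
    simp only [iInf_eq_iInter, mem_iInter]
    intro b' hb'
    by_contra hmem
    exact (hρ q).2 b' hmem (hb'.trans_le hq)
  refine ⟨ρ, fun p hp => (hρ p).1 ?_⟩
  exact f.monotone (fun q hq => hseg _ q hq) hp

/-- (A) the closing operation of a function `W` -/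
lemma exists_op {V : Type u} (μ : Cardinal.{u}) (G : SimpleGraph V)
    (hG : ∀ P, GoodP μ G P → P = ∅) (W : V → Set V) (hW : ∀ x, ∀ y ∈ W x, G.Adj x y) :
    ∃ op : Finset V → Set V, (∀ F, #(op F) ≤ μ) ∧ op ∅ = ∅ ∧
      ∀ x, ¬CC G (W x) → ∃ F : Finset V, ↑F ⊆ W x ∧ x ∈ op F := by
  classical
  let f : Set V →o Set V := ⟨fun Q => {x | ¬CC G (W x) ∧ ∀ F : Finset V, ↑F ⊆ W x →
    μ < #{z : V | z ∈ Q ∧ ↑F ⊆ W z}}, by
      rintro Q Q' hQ x ⟨h1, h2⟩
      refine ⟨h1, fun F hF => (h2 F hF).trans_le (mk_le_mk_of_subset ?_)⟩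
      exact fun z hz => ⟨hQ hz.1, hz.2⟩⟩
  have hf : f.gfp = ∅ := by
    have h1 : GoodP μ G {p | p.1 ∈ f.gfp ∧ p.2 = W p.1} := by
      constructor
      · rintro x A B ⟨-, hA⟩ ⟨-, hB⟩
        exact hA.trans hB.symm
      · rintro x A ⟨hx, hA⟩
        change A = W x at hA
        subst hA
        have hx' : x ∈ f f.gfp := by rw [OrderHom.map_gfp]; exact hx
        refine ⟨hW x, hx'.1, fun F hF => (hx'.2 F hF).trans_le (mk_le_mk_of_subset ?_)⟩
        exact fun z hz => ⟨W z, ⟨hz.1, rfl⟩, hz.2⟩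
    have h2 := hG _ h1
    rw [eq_empty_iff_forall_notMem] at h2 ⊢
    exact fun x hx => h2 (x, W x) ⟨hx, rfl⟩
  obtain ⟨ρ, hρ⟩ := exists_rank f hf
  refine ⟨fun F => if F = ∅ then ∅ else
    {z | ↑F ⊆ W z ∧ #{z' : V | ρ z ≤ ρ z' ∧ ↑F ⊆ W z'} ≤ μ}, ?_, if_pos rfl, ?_⟩
  · intro F
    by_cases hF : F = ∅
    · simp only [hF, if_true]
      simp
    · simp only [hF, if_false]
      set S : Set V := {z | ↑F ⊆ W z ∧ #{z' : V | ρ z ≤ ρ z' ∧ ↑F ⊆ W z'} ≤ μ} with hS
      rcases S.eq_empty_or_nonempty with he | hne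
      · rw [he]
        simp
      · obtain ⟨m, ⟨y0, hy0, rfl⟩, hmin⟩ :=
          (wellFounded_lt (α := Ordinal.{u})).has_min (ρ '' S) (hne.image ρ)
        refine (mk_le_mk_of_subset ?_).trans hy0.2
        intro z hz
        exact ⟨not_lt.1 (hmin _ ⟨z, hz, rfl⟩), hz.1⟩
  · intro x hx
    have h1 : ∃ F : Finset V, ↑F ⊆ W x ∧ #{z : V | ρ x ≤ ρ z ∧ ↑F ⊆ W z} ≤ μ := by
      by_contra hcon
      push Not at hcon
      exact hρ x ⟨hx, fun F hF => hcon F hF⟩
    obtain ⟨F, hF1, hF2⟩ := h1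
    by_cases hF : F = ∅
    · have hne : (W x).Nonempty := by
        rw [nonempty_iff_ne_empty]
        intro he
        apply hx
        rw [he]
        exact ⟨fun _ => 0, fun y hy => absurd hy (notMem_empty y)⟩
      obtain ⟨w, hw⟩ := hne
      have hw' : (↑({w} : Finset V) : Set V) ⊆ W x := by simpa using hw
      refine ⟨{w}, hw', ?_⟩
      beta_reduce
      rw [if_neg (Finset.singleton_ne_empty w)]
      refine ⟨hw', (mk_le_mk_of_subset ?_).trans hF2⟩
      intro z hz
      exact ⟨hz.1, by rw [hF]; simp⟩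
    · refine ⟨F, hF1, ?_⟩
      beta_reduce
      rw [if_neg hF]
      exact ⟨hF1, hF2⟩

/-- neighbours of lower level -/
def low {V : Type u} {ι : Type u} (G : SimpleGraph V) (A : ι → Set V) (x : V) : Set V :=
  {y | G.Adj x y ∧ ∃ i, y ∈ A i ∧ x ∉ A i}

/-- iterated closures -/
def it {V : Type u} {ι : Type u} (G : SimpleGraph V) (op : (V → Set V) → Finset V → Set V)
    (A : ι → Set V) : ℕ → ι → Set V
  | 0 => A
  | n + 1 => fun i => cl (op (low G (it G op A n))) (it G op A n i)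

/-- (B) the lower neighbourhoods of the limit levels are countably chromatic -/
lemma low_cc {V : Type u} {ι : Type u} [LinearOrder ι] [WellFoundedLT ι] (G : SimpleGraph V)
    (op : (V → Set V) → Finset V → Set V) (A : ι → Set V) (hA : ∀ i j, i ≤ j → A i ⊆ A j)
    (hop0 : ∀ B : ι → Set V, op (low G B) ∅ = ∅)
    (hop : ∀ B : ι → Set V, ∀ x, ¬CC G (low G B x) →
      ∃ F : Finset V, ↑F ⊆ low G B x ∧ x ∈ op (low G B) F)
    (hex : ∀ x, ∃ i, x ∈ A i) (x : V) : CC G (low G (fun i => ⋃ n, it G op A n i) x) := by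
  classical
  have hmono : ∀ n i j, i ≤ j → it G op A n i ⊆ it G op A n j := by
    intro n
    induction n with
    | zero => exact hA
    | succ n ih => exact fun i j hij => cl_mono (ih i j hij)
  have hstep : ∀ n i, it G op A n i ⊆ it G op A (n + 1) i := fun n i => subset_cl _
  have hmono' : ∀ i m n, m ≤ n → it G op A m i ⊆ it G op A n i := by
    intro i m n h
    induction h with
    | refl => exact subset_rfl
    | step _ ih => exact ih.trans (hstep _ i)
  have hstab : ∀ y : V, ∃ m : ℕ, ∀ n i, m ≤ n → y ∈ ⋃ n, it G op A n i → y ∈ it G op A n i := by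
    intro y
    obtain ⟨i0, hi0, hmin⟩ := (wellFounded_lt (α := ι)).has_min
      {i | y ∈ ⋃ n, it G op A n i} (by
        obtain ⟨i, hi⟩ := hex y
        exact ⟨i, mem_iUnion.2 ⟨0, hi⟩⟩)
    obtain ⟨m, hm⟩ := mem_iUnion.1 hi0
    refine ⟨m, fun n i hn hy => ?_⟩
    exact hmono n i0 i (not_lt.1 (hmin i hy)) (hmono' i0 m n hn hm)
  choose nn hnn using hstab
  have hcc : ∀ n, nn x ≤ n → CC G (low G (it G op A n) x) := by
    intro n hn
    by_contra hcon
    obtain ⟨F, hF1, hF2⟩ := hop _ x hcon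
    rcases F.eq_empty_or_nonempty with rfl | hne
    · rw [hop0] at hF2
      exact hF2
    · have h1 : ∀ y ∈ F, ∃ i, y ∈ it G op A n i ∧ x ∉ it G op A n i := fun y hy => (hF1 hy).2
      obtain ⟨y1, hy1⟩ := hne
      obtain ⟨i1, hi1⟩ := h1 y1 hy1
      have : Nonempty ι := ⟨i1⟩
      choose! g hg1 hg2 using h1
      obtain ⟨y0, hy0, hmax⟩ := F.exists_max_image g ⟨y1, hy1⟩
      have h2 : (↑F : Set V) ⊆ it G op A n (g y0) := fun y hy =>
        hmono n _ _ (hmax y hy) (hg1 y hy)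
      have h3 : x ∈ it G op A (n + 1) (g y0) :=
        cl_closed (it G op A n (g y0)) (h2.trans (subset_cl _)) hF2
      exact hg2 y0 hy0 (hnn x n _ hn (mem_iUnion.2 ⟨n + 1, h3⟩))
  choose! φ hφ using hcc
  have hin : ∀ y ∈ low G (fun i => ⋃ n, it G op A n i) x,
      y ∈ low G (it G op A (max (nn x) (nn y))) x := by
    rintro y ⟨h1, i, h2, h3⟩
    refine ⟨h1, i, hnn y _ i (le_max_right _ _) h2, fun h4 => h3 (mem_iUnion.2 ⟨_, h4⟩)⟩
  refine ⟨fun y => Nat.pair (max (nn x) (nn y)) (φ (max (nn x) (nn y)) y), ?_⟩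
  intro y hy z hz hyz heq
  obtain ⟨h1, h2⟩ := Nat.pair_eq_pair.1 heq
  have hy' := hin y hy
  have hz' := hin z hz
  rw [← h1] at h2 hz'
  exact hφ _ (le_max_left _ _) y hy' z hz' hyz h2

/-- (C) colouring along levels -/
lemma color_of_levels {V : Type u} (G : SimpleGraph V) {ι : Type u} [LinearOrder ι]
    (lev : V → ι) (hlow : ∀ x : V, ∃ φ : V → ℕ, ∀ y z, G.Adj x y → G.Adj x z → G.Adj y z →
      lev y < lev x → lev z < lev x → φ y ≠ φ z)
    (hlev : ∀ i, TriColorable (G.comap (Subtype.val : {x // lev x = i} → V))) :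
    TriColorable G := by
  classical
  choose φ hφ using hlow
  -- colourings inside the levels
  have hlevel : ∀ i : ι, ∃ c : V → V → ℕ, (∀ x y, c x y = c y x) ∧
      ∀ x y z, lev x = i → lev y = i → lev z = i → G.Adj x y → G.Adj y z → G.Adj x z →
        ¬(c x y = c y z ∧ c y z = c x z) := by
    intro i
    obtain ⟨c, hc1, hc2⟩ := hlev i
    refine ⟨fun x y => if h : lev x = i ∧ lev y = i then c ⟨x, h.1⟩ ⟨y, h.2⟩ else 0, ?_, ?_⟩
    · intro x y
      by_cases h : lev x = i ∧ lev y = i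
      · simp only [h, and_self, dif_pos]
        exact hc1 _ _
      · have h' : ¬(lev y = i ∧ lev x = i) := fun h' => h h'.symm
        simp only [h, h', dif_neg, not_false_iff]
    · intro x y z hx hy hz hxy hyz hxz
      have h1 : lev x = i ∧ lev y = i := ⟨hx, hy⟩
      have h2 : lev y = i ∧ lev z = i := ⟨hy, hz⟩
      simp only [h1, h2]
      exact hc2 ⟨x, hx⟩ ⟨y, hy⟩ ⟨z, hz⟩ hxy hyz hxz
  choose c hc1 hc2 using hlevel
  -- the colouring
  let col : V → V → ℕ := fun x y =>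
    if lev x = lev y then 2 * c (lev x) x y
    else if lev y < lev x then 2 * φ x y + 1 else 2 * φ y x + 1
  have hsymm : ∀ x y, col x y = col y x := by
    intro x y
    simp only [col]
    rcases lt_trichotomy (lev x) (lev y) with h | h | h
    · simp [h, h.ne, h.ne', not_lt.2 h.le]
    · simp [h, hc1 _ x y]
    · simp [h, h.ne, h.ne', not_lt.2 h.le]
  -- even colours occur exactly inside levels
  have heven : ∀ x y, lev x = lev y → col x y = 2 * c (lev x) x y := by
    intro x y h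
    simp [col, h]
  have hodd : ∀ x y, lev y < lev x → col x y = 2 * φ x y + 1 := by
    intro x y h
    simp [col, h, h.ne']
  refine ⟨col, hsymm, ?_⟩
  -- triangle with a unique top vertex
  have top1 : ∀ x y z, lev y < lev x → lev z < lev x → G.Adj x y → G.Adj x z → G.Adj y z →
      col x y ≠ col x z := by
    intro x y z hy hz hxy hxz hyz
    rw [hodd x y hy, hodd x z hz]
    have := hφ x y z hxy hxz hyz hy hz
    omega
  -- two top vertices
  have top2 : ∀ x y z, lev x = lev y → lev z < lev x → col x y ≠ col x z := by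
    intro x y z hxy hz
    rw [heven x y hxy, hodd x z hz]
    omega
  rintro x y z hxy hyz hxz ⟨h1, h2⟩
  have h3 : col x y = col x z := h1.trans h2
  have h1' : col y x = col y z := by rw [hsymm y x]; exact h1
  have h2' : col z y = col z x := by rw [hsymm z y, hsymm z x]; exact h2
  rcases lt_trichotomy (lev x) (lev y) with hxy' | hxy' | hxy'
  · rcases lt_trichotomy (lev y) (lev z) with hyz' | hyz' | hyz'
    · exact top1 z y x hyz' (hxy'.trans hyz') hyz.symm hxz.symm hxy.symm h2'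
    · exact top2 y z x hyz' hxy' h1'.symm
    · exact top1 y x z hxy' hyz' hxy.symm hyz hxz h1'
  · rcases lt_trichotomy (lev y) (lev z) with hyz' | hyz' | hyz'
    · exact top1 z y x hyz' (hxy' ▸ hyz') hyz.symm hxz.symm hxy.symm h2'
    · refine hc2 (lev x) x y z rfl hxy'.symm (hxy'.trans hyz').symm hxy hyz hxz ?_
      rw [heven x y hxy', heven y z hyz', ← hxy'] at h1
      rw [heven y z hyz', heven x z (hxy'.trans hyz'), ← hxy'] at h2
      exact ⟨by omega, by omega⟩
    · exact top2 x y z hxy' (hxy' ▸ hyz') h3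
  · rcases lt_trichotomy (lev x) (lev z) with hxz' | hxz' | hxz'
    · exact top1 z y x (hxy'.trans hxz') hxz' hyz.symm hxz.symm hxy.symm h2'
    · exact top2 x z y hxz' hxy' h3.symm
    · exact top1 x y z hxy' hxz' hxy hxz hyz h3

/-- the pairs of an induced subgraph as pairs of the graph -/
lemma goodP_image {V : Type u} (μ : Cardinal.{u}) (G : SimpleGraph V) (p : V → Prop)
    (P : Set ({x // p x} × Set {x // p x}))
    (hP : GoodP μ (G.comap (Subtype.val : {x // p x} → V)) P) :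
    GoodP μ G {q | ∃ a ∈ P, q = (a.1.1, Subtype.val '' a.2)} := by
  classical
  constructor
  · rintro x W W' ⟨⟨a, A⟩, ha, h1⟩ ⟨⟨b, B⟩, hb, h2⟩
    simp only [Prod.mk.injEq] at h1 h2
    have hab : a = b := Subtype.ext (h1.1.symm.trans h2.1)
    subst hab
    rw [h1.2, h2.2, hP.1 a A B ha hb]
  · rintro x W ⟨⟨a, A⟩, ha, h1⟩
    simp only [Prod.mk.injEq] at h1
    obtain ⟨rfl, rfl⟩ := h1
    obtain ⟨a1, a2, a3⟩ := hP.2 a A ha
    refine ⟨?_, ?_, ?_⟩
    · rintro _ ⟨y, hy, rfl⟩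
      exact a1 y hy
    · rintro ⟨φ, hφ⟩
      exact a2 ⟨fun v => φ v.1, fun y hy z hz hyz =>
        hφ y.1 ⟨y, hy, rfl⟩ z.1 ⟨z, hz, rfl⟩ hyz⟩
    · intro F' hF'
      obtain ⟨h1, h2⟩ := sub_fin (p := p) F' A hF'
      refine (a3 _ h1).trans_le ?_
      refine mk_le_of_injective (f := fun z => ⟨z.1.1, ?_⟩) ?_
      · obtain ⟨W', hW1, hW2⟩ := z.2
        exact ⟨Subtype.val '' W', ⟨(z.1, W'), hW1, rfl⟩, h2 W' hW2⟩
      · intro z z' hzz
        have h3 := congrArg Subtype.val hzz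
        exact Subtype.ext (Subtype.ext h3)

/-- a graph without a nonempty good set of pairs is a countable union of triangle-free graphs -/
theorem triColorable_of_goodP {μ : Cardinal.{u}} (hμ : ℵ₀ ≤ μ) :
    ∀ (V : Type u) (G : SimpleGraph V),
    (∀ (A : Type u) (f : A → V), Function.Injective f → #A ≤ μ → TriColorable (G.comap f)) →
    (∀ P, GoodP μ G P → P = ∅) → TriColorable G := by
  suffices H : ∀ (κ : Cardinal.{u}) (V : Type u), #V = κ → ∀ (G : SimpleGraph V),
      (∀ (A : Type u) (f : A → V), Function.Injective f → #A ≤ μ → TriColorable (G.comap f)) →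
      (∀ P, GoodP μ G P → P = ∅) → TriColorable G from fun V => H #V V rfl
  intro κ
  induction κ using WellFoundedLT.induction with
  | ind κ ih =>
  intro V hV G hbase hG
  classical
  rcases le_or_gt #V μ with hc | hc
  · exact hbase V id Function.injective_id hc
  have hop : ∀ W : V → Set V, ∃ op : Finset V → Set V, (∀ F, #(op F) ≤ μ) ∧ op ∅ = ∅ ∧
      ((∀ x, ∀ y ∈ W x, G.Adj x y) →
        ∀ x, ¬CC G (W x) → ∃ F : Finset V, ↑F ⊆ W x ∧ x ∈ op F) := by
    intro W
    by_cases hW : ∀ x, ∀ y ∈ W x, G.Adj x y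
    · obtain ⟨op, h1, h2, h3⟩ := exists_op μ G hG W hW
      exact ⟨op, h1, h2, fun _ => h3⟩
    · exact ⟨fun _ => ∅, fun F => by simp, rfl, fun h => absurd h hW⟩
  choose op hop1 hop2 hop3 using hop
  let ι : Type u := (#V).ord.ToType
  have hι : #ι = #V := by simp [ι]
  obtain ⟨e⟩ : Nonempty (ι ≃ V) := Cardinal.eq.1 hι
  let X : ι → Set V := fun i => e '' Iic i
  have hXmono : ∀ i j, i ≤ j → X i ⊆ X j := fun i j h => image_mono (Iic_subset_Iic.2 h)
  have hXex : ∀ x : V, ∃ i, x ∈ X i := fun x => ⟨e.symm x, e.symm x, by simp, by simp⟩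
  have hXc : ∀ i, #(X i) < #V := by
    intro i
    refine mk_image_le.trans_lt ?_
    have h2 : #(Iio i) < #V := by simpa [ι] using mk_Iio_lt i
    have h3 : #(Iic i) ≤ #(Iio i) + 1 := by
      rw [← Iio_insert]
      exact mk_insert_le
    refine h3.trans_lt (add_lt_of_lt (hμ.trans hc.le) h2 ?_)
    exact (one_lt_aleph0).trans (hμ.trans_lt hc)
  let B : ι → Set V := fun i => ⋃ n, it G op X n i
  have hBc : ∀ i, #(B i) < #V := by
    intro i
    set ν := max #(X i) μ with hν
    have hν0 : ℵ₀ ≤ ν := hμ.trans (le_max_right _ _)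
    have h1 : ∀ n, #(it G op X n i) ≤ ν := by
      intro n
      induction n with
      | zero => exact le_max_left _ _
      | succ n ihn => exact (mk_cl_le hμ (hop1 _) _).trans (max_le ihn (le_max_right _ _))
    have h := mk_iUnion_le_lift (fun n => it G op X n i)
    rw [lift_uzero] at h
    refine h.trans_lt ?_
    have h6 : (⨆ n, lift.{0} #(it G op X n i)) ≤ ν := ciSup_le' fun k => by
      rw [lift_uzero]
      exact h1 k
    have h7 : lift.{u, 0} #ℕ = ℵ₀ := by simp
    rw [h7]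
    refine (mul_le_mul' le_rfl h6).trans_lt ?_
    rw [aleph0_mul_eq hν0]
    exact max_lt (hXc i) hc
  have hex : ∀ x : V, ∃ i, x ∈ B i := by
    intro x
    obtain ⟨i, hi⟩ := hXex x
    exact ⟨i, mem_iUnion.2 ⟨0, hi⟩⟩
  let lev : V → ι := fun x =>
    WellFounded.min (wellFounded_lt (α := ι)) {i | x ∈ B i} (hex x)
  have hlev : ∀ x, x ∈ B (lev x) := fun x =>
    WellFounded.min_mem (wellFounded_lt (α := ι)) {i | x ∈ B i} (hex x)
  have hlev' : ∀ x i, x ∈ B i → lev x ≤ i := fun x i hi =>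
    not_lt.1 (WellFounded.not_lt_min (wellFounded_lt (α := ι)) {i | x ∈ B i} hi)
  refine color_of_levels G lev ?_ ?_
  · intro x
    obtain ⟨φ, hφ⟩ := low_cc G op X hXmono (fun _ => hop2 _)
      (fun C x hx => hop3 (low G C) (fun x y hy => hy.1) x hx) hXex x
    refine ⟨φ, fun y z hxy hxz hyz hy hz => hφ y ⟨hxy, lev y, hlev y, ?_⟩ z
      ⟨hxz, lev z, hlev z, ?_⟩ hyz⟩
    · exact fun h => absurd (hlev' x _ h) (not_le.2 hy)
    · exact fun h => absurd (hlev' x _ h) (not_le.2 hz)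
  · intro i
    have hlt : #{x // lev x = i} < κ := by
      rw [← hV]
      refine lt_of_le_of_lt (mk_le_mk_of_subset (t := B i) ?_) (hBc i)
      rintro x rfl
      exact hlev x
    refine ih _ hlt {x // lev x = i} rfl (G.comap Subtype.val) (fun A f hf hA =>
      hbase A (fun a => (f a).1) (Subtype.val_injective.comp hf) hA) ?_
    intro P hP
    have h1 := hG _ (goodP_image μ G (fun v => lev v = i) P hP)
    rw [eq_empty_iff_forall_notMem] at h1 ⊢
    exact fun a ha => h1 _ ⟨a, ha, rfl⟩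

/-- (D) every graph has a good set of pairs outside of which it is a countable union of
triangle-free graphs -/
theorem exists_goodP {μ : Cardinal.{u}} (hμ : ℵ₀ ≤ μ) {V : Type u} (G : SimpleGraph V)
    (hbase : ∀ (A : Type u) (f : A → V), Function.Injective f → #A ≤ μ →
      TriColorable (G.comap f)) :
    ∃ P : Set (V × Set V), GoodP μ G P ∧
      TriColorable (G.comap (Subtype.val : {x : V // ∀ W, (x, W) ∉ P} → V)) := by
  classical
  obtain ⟨P, hP⟩ := zorn_subset {P | GoodP μ G P} (by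
    intro c hc hchain
    refine ⟨⋃₀ c, ⟨?_, ?_⟩, fun s hs => subset_sUnion_of_mem hs⟩
    · rintro x W W' ⟨P1, hP1, h1⟩ ⟨P2, hP2, h2⟩
      rcases hchain.total hP1 hP2 with h | h
      · exact (hc hP2).1 x W W' (h h1) h2
      · exact (hc hP1).1 x W W' h1 (h h2)
    · rintro x W ⟨P1, hP1, h1⟩
      obtain ⟨a1, a2, a3⟩ := (hc hP1).2 x W h1
      refine ⟨a1, a2, fun F hF => (a3 F hF).trans_le (mk_le_mk_of_subset ?_)⟩
      rintro z ⟨W', hW1, hW2⟩
      exact ⟨W', ⟨P1, hP1, hW1⟩, hW2⟩)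
  have hgood : GoodP μ G P := hP.prop
  refine ⟨P, hgood, ?_⟩
  refine triColorable_of_goodP hμ _ _ (fun A f hf hA =>
    hbase A (fun a => (f a).1) (Subtype.val_injective.comp hf) hA) ?_
  intro P' hP'
  set P'' : Set (V × Set V) := {q | ∃ a ∈ P', q = (a.1.1, Subtype.val '' a.2)} with hP''
  have h1 : GoodP μ G P'' := goodP_image μ G (fun x => ∀ W, (x, W) ∉ P) P' hP'
  have h2 : GoodP μ G (P ∪ P'') := by
    constructor
    · rintro x W W' (h3 | h3) (h4 | h4)
      · exact hgood.1 x W W' h3 h4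
      · obtain ⟨⟨a, A⟩, ha, h5⟩ := h4
        simp only [Prod.mk.injEq] at h5
        exact absurd h3 (h5.1 ▸ a.2 W)
      · obtain ⟨⟨a, A⟩, ha, h5⟩ := h3
        simp only [Prod.mk.injEq] at h5
        exact absurd h4 (h5.1 ▸ a.2 W')
      · exact h1.1 x W W' h3 h4
    · rintro x W (h3 | h3)
      · obtain ⟨a1, a2, a3⟩ := hgood.2 x W h3
        refine ⟨a1, a2, fun F hF => (a3 F hF).trans_le (mk_le_mk_of_subset ?_)⟩
        rintro z ⟨W', hW1, hW2⟩
        exact ⟨W', Or.inl hW1, hW2⟩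
      · obtain ⟨a1, a2, a3⟩ := h1.2 x W h3
        refine ⟨a1, a2, fun F hF => (a3 F hF).trans_le (mk_le_mk_of_subset ?_)⟩
        rintro z ⟨W', hW1, hW2⟩
        exact ⟨W', Or.inr hW1, hW2⟩
  have h3 : P ∪ P'' ⊆ P := hP.le_of_ge h2 subset_union_left
  rw [eq_empty_iff_forall_notMem]
  rintro ⟨x, W⟩ hp
  exact x.2 _ (h3 (Or.inr ⟨(x, W), hp, rfl⟩))

end Pool.Agent.H60EH
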